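import Pool.Agent.CGS.Fac
import Pool.Agent.CGS.Theta
import Pool.Agent.CGS.Alg

/-!
# MP_c4ee57_al, Q1: a group with a rational and a transcendental complete growth series

For `G = F₂ × D_∞ × ℤ × ℤ` with generators `a, b` of `F₂`, `τ` (rotation), `σ` (reflection) of
`D_∞`, and `s`, `t` of the two factors `ℤ`, the complete growth series of `G` is rational for
`S₁ = {a, b, τ, σ, s, t}` and transcendental for
`S₂ = {a τ⁻¹, b τ⁻¹, σ s, a τ t, τ, σ}`.

The definitions `wordLength`, `CG`, `star`, `rationalSubring`, `Mono`, `Mono.eval`,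
`Mono.Proper`, `IsAlgebraicSeries`, `Grp`, `S1`, `S2` are in `Pool.Agent.CGS.Defs`.
-/

namespace Pool.Agent.Results.MP_c4ee57_al.RationalTranscendental

open CGS

/-- For `G = F₂ × D_∞ × ℤ × ℤ` and its finite generating sets `S1`, `S2`, the complete growth
series of `(G, S1)` is rational and that of `(G, S2)` is transcendental (not algebraic). -/
theorem result :
    Subgroup.closure (S1 : Set Grp) = ⊤ ∧ Subgroup.closure (S2 : Set Grp) = ⊤ ∧
      CG S1 ∈ rationalSubring (MonoidAlgebra ℤ Grp) ∧ ¬ IsAlgebraicSeries (CG S2) := by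
  refine ⟨closure_S1, closure_S2, CG_S1_mem, fun h => ?_⟩
  obtain ⟨P, hP, hP0⟩ := isAlgebraic_entry (k := kk) (ι := Bool) Theta Theta_poly h false false
  exact Theta_CG_transcendental P hP hP0

end Pool.Agent.Results.MP_c4ee57_al.RationalTranscendental
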